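import Pool.Agent.Helper54.TZ.Cons

/-!
MP_8ee768_co, project TH-Y', stage 0, engine V3 (helper69): the cell form of `pr` (remove the quads above
a set of triples) and of the product which counts the hits of all points.
-/

set_option autoImplicit false
set_option maxRecDepth 100000

namespace Pool.Agent.Helper97.TY

open Finset Pool.Agent.Helper63.SIMD
open Pool.Agent.Helper79.CV (L nodup_L lt_of_mem_L)
open Pool.Agent.Helper33.CV (layM testBit_layM)
open Pool.Agent.Helper54.TZ
open Pool.Agent.Helper57.TZ (QUA testBit_QUA notMem_of_qua qua_of_notMem exists_point)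
open Pool.Agent.Helper69.TY

theorem mem_one {i : ℕ} : i ∈ L 11 1 ↔ ∃ d < 11, i = 2 ^ d := by
  have h1 : ∀ i ∈ L 11 1, ∃ d < 11, i = 2 ^ d := by decide +kernel
  have h2 : ∀ d < 11, 2 ^ d ∈ L 11 1 := by decide +kernel
  constructor
  · exact h1 i
  · rintro ⟨d, hd, rfl⟩
    exact h2 d hd

theorem below_quad {m t : ℕ} (hm : m ∈ L 11 4) (ht : t ∈ L 11 3) :
    (t ≤ m ∧ m - t ∈ L 11 1) ↔ t &&& m = t := by
  constructor
  · rintro ⟨h1, h2⟩
    obtain ⟨d, hd, h3⟩ := mem_one.1 h2
    have h4 : m = t + 2 ^ d := by omega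
    have h5 : QUA.testBit (t + 2 ^ d) = true := by
      rw [testBit_QUA, ← h4, decide_eq_true hm]
    have h6 := (qua_of_notMem ht hd (notMem_of_qua ht hd h5)).2
    rw [h4, h6]
    refine Nat.eq_of_testBit_eq fun i => ?_
    rw [Nat.testBit_and, Nat.testBit_or]
    cases t.testBit i <;> rfl
  · intro h
    obtain ⟨d, hd, _, h3⟩ := exists_point ht hm h
    refine ⟨?_, mem_one.2 ⟨d, hd, ?_⟩⟩
    · rw [h3]
      exact Nat.le_add_right _ _
    · rw [h3]
      exact Nat.add_sub_cancel_left _ _

/-- a quad has four points -/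
def quadOK : Bool := (L 11 4).all fun m => Nat.beq (List.rec (motive := fun _ => ℕ) 0
  (fun d _ s => Nat.add (Nat.land (Nat.shiftRight m d) 1) s) (List.range 11)) 4

theorem quadOK_ok : quadOK = true := by decide +kernel

theorem sum_bits (m : ℕ) (l : List ℕ) (hl : l.Nodup) : List.rec (motive := fun _ => ℕ) 0
    (fun d _ s => Nat.add (Nat.land (Nat.shiftRight m d) 1) s) l =
    (l.toFinset.filter fun d => m.testBit d = true).card := by
  induction l with
  | nil => rfl
  | cons d l ih =>
    rw [List.nodup_cons] at hl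
    show Nat.add (Nat.land (Nat.shiftRight m d) 1) _ = _
    rw [ih hl.2, List.toFinset_cons, filter_insert]
    have e : Nat.land (Nat.shiftRight m d) 1 = (m.testBit d).toNat := by
      show (m >>> d) &&& 1 = _
      rw [Nat.and_one_is_mod, Nat.shiftRight_eq_div_pow, Nat.testBit_eq_decide_div_mod_eq]
      rcases Nat.mod_two_eq_zero_or_one (m / 2 ^ d) with h | h
      · rw [h]
        rfl
      · rw [h]
        rfl
    rw [e]
    cases h : m.testBit d
    · rw [if_neg Bool.false_ne_true]
      exact Nat.zero_add _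
    · rw [if_pos rfl, card_insert_of_notMem]
      · exact Nat.add_comm _ _
      · rw [mem_filter, List.mem_toFinset]
        exact fun h2 => hl.1 h2.1

theorem quad_points {m : ℕ} (hm : m ∈ L 11 4) :
    ((range 11).filter fun d => m.testBit d = true).card = 4 := by
  have h := List.all_eq_true.1 quadOK_ok m hm
  have h2 := Nat.eq_of_beq_eq_true h
  rw [sum_bits m _ List.nodup_range] at h2
  rw [← h2, List.toFinset_range]

theorem cp_quad {X : Finset ℕ} (hX : X ⊆ TR) {m : ℕ} (hm : m ∈ QU) :
    cp X PT m = (X.filter fun t => t &&& m = t).card := by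
  unfold cp
  congr 1
  refine filter_congr fun t ht => ?_
  rw [List.mem_toFinset]
  exact below_quad (List.mem_toFinset.1 hm) (List.mem_toFinset.1 (hX ht))

theorem cp_quad_le {X : Finset ℕ} (hX : X ⊆ TR) {m : ℕ} (hm : m ∈ QU) : cp X PT m ≤ 4 := by
  have hm' := List.mem_toFinset.1 hm
  rw [← quad_points hm', ← card_image_of_injective _ (Nat.pow_right_injective (le_refl 2))]
  unfold cp
  refine card_le_card_of_injOn (fun t => m - t) ?_ ?_
  · intro t ht
    rw [mem_coe, mem_filter] at ht
    rw [mem_coe, mem_image]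
    have ht3 := List.mem_toFinset.1 (hX ht.1)
    obtain ⟨d, hd, h3⟩ := mem_one.1 (List.mem_toFinset.1 ht.2.2)
    refine ⟨d, ?_, h3.symm⟩
    rw [mem_filter, mem_range]
    refine ⟨hd, ?_⟩
    have h4 : m = t + 2 ^ d := by
      have := ht.2.1
      omega
    have h5 : QUA.testBit (t + 2 ^ d) = true := by
      rw [testBit_QUA, ← h4, decide_eq_true hm']
    have h6 := (qua_of_notMem ht3 hd (notMem_of_qua ht3 hd h5)).2
    rw [h4, h6, Nat.testBit_or, Nat.testBit_two_pow_self, Bool.or_true]
  · intro a ha b hb hab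
    rw [mem_coe, mem_filter] at ha hb
    have h1 := ha.2.1
    have h2 := hb.2.1
    have h3 : m - a = m - b := hab
    omega

theorem pk_trunc {W n k : ℕ} {g : ℕ → ℕ} (h : ∀ m, n ≤ m → g m = 0) :
    pk W (n + k) g = pk W n g := by
  unfold pk
  rw [sum_range_add]
  refine (Nat.add_eq_left.2 ?_)
  refine sum_eq_zero fun m _ => ?_
  rw [h (n + m) (Nat.le_add_right _ _), zero_mul]

theorem PT_lt {m : ℕ} (h : m ∈ PT) : m < 2048 := lt_of_mem_L (List.mem_toFinset.1 h)
theorem TR_lt {m : ℕ} (h : m ∈ TR) : m < 2048 := lt_of_mem_L (List.mem_toFinset.1 h)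
theorem QU_lt {m : ℕ} (h : m ∈ QU) : m < 2048 := lt_of_mem_L (List.mem_toFinset.1 h)

theorem PT_card : PT.card = 11 := by
  show (L 11 1).toFinset.card = 11
  rw [List.toFinset_card_of_nodup (nodup_L 11 1)]
  decide +kernel

/-- **[P]** `pr` removes exactly the quads above the triples of `X` -/
theorem pr_eq {w : ℕ → ℕ} {X : Finset ℕ} (hX : X ⊆ TR) (hw : ∀ m < 2049, w m < 16)
    (hq : ∀ m ∈ QU, w m = 0 ∨ w m = 8) :
    V3.pr (pk 4 2049 w) (gs 4 X) =
      pk 4 2049 (fun m => if m ∈ QU ∧ ∃ t ∈ X, t &&& m = t then 0 else w m) := by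
  have h1 : gs 4 X * gs 4 PT = pk 4 (2049 + 2047) (cp X PT) := gs_mul fun a ha p hp => by
    have := TR_lt (hX ha)
    have := PT_lt hp
    omega
  have h2 : 7 * gs 4 QU = pk 4 (2049 + 2047) (fun m => if m ∈ QU then 7 else 0) :=
    mul_gs_eq_pk fun a ha => by
      have := QU_lt ha
      omega
  have hc : ∀ m, cp X PT m + (if m ∈ QU then 7 else 0) < 2 ^ 4 := by
    intro m
    have h3 := cp_le_right X PT m
    rw [PT_card] at h3
    by_cases hm : m ∈ QU
    · have h4 := cp_quad_le hX hm
      rw [if_pos hm]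
      omega
    · rw [if_neg hm]
      omega
  have hex : ∀ m ∈ QU, 1 ≤ cp X PT m ↔ ∃ t ∈ X, t &&& m = t := by
    intro m hm
    rw [cp_quad hX hm, Nat.succ_le_iff, card_pos]
    constructor
    · rintro ⟨t, ht⟩
      rw [mem_filter] at ht
      exact ⟨t, ht.1, ht.2⟩
    · rintro ⟨t, ht, h⟩
      exact ⟨t, mem_filter.2 ⟨ht, h⟩⟩
  have h3 : (gs 4 X * gs 4 PT + 7 * gs 4 QU) &&& (8 * gs 4 QU) =
      pk 4 2049 (fun m => if m ∈ QU ∧ ∃ t ∈ X, t &&& m = t then 8 else 0) := by
    rw [h1, h2, pk_add, pk_land_gs (fun a ha => by have := QU_lt ha; omega) (fun m _ => hc m)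
      (by norm_num), pk_trunc]
    · refine pk_congr fun m _ => ?_
      by_cases hm : m ∈ QU
      · have h4 := cp_quad_le hX hm
        rw [if_pos hm, if_pos hm]
        by_cases h5 : ∃ t ∈ X, t &&& m = t
        · rw [if_pos ⟨hm, h5⟩]
          have h6 := (hex m hm).2 h5
          have h7 : ∀ c, 1 ≤ c → c ≤ 4 → (c + 7) &&& 8 = 8 := by
            intro c h8 h9
            interval_cases c <;> rfl
          exact h7 _ h6 h4
        · rw [if_neg (fun h => h5 h.2)]
          have h6 : cp X PT m = 0 := by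
            by_contra h7
            exact h5 ((hex m hm).1 (by omega))
          rw [h6]
          rfl
      · rw [if_neg hm, if_neg (fun h => hm h.1)]
    · intro m hm
      exact if_neg fun h => by have := QU_lt h; omega
  have h4 : V3.pr (pk 4 2049 w) (gs 4 X) = pk 4 2049 w -
      (((gs 4 X * V3.cS + V3.c7Q) &&& V3.c8Q) &&& pk 4 2049 w) := rfl
  rw [h4, cS_eq, c7Q_eq, c8Q_eq, h3, pk_land, pk_sub]
  · refine pk_congr fun m _ => ?_
    by_cases h5 : m ∈ QU ∧ ∃ t ∈ X, t &&& m = t
    · rw [if_pos h5, if_pos h5]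
      rcases hq m h5.1 with h6 | h6
      · rw [h6]
        rfl
      · rw [h6]
        rfl
    · rw [if_neg h5, if_neg h5, Nat.zero_and, Nat.sub_zero]
  · intro m _
    exact Nat.and_le_right
  · intro m _
    show (if _ then 8 else 0) < 2 ^ 4
    split_ifs <;> norm_num
  · intro m hm
    exact hw m hm

/-- all pairs -/
def pairM : ℕ := 0x1000000000000000000000000000000000000000000000000000000000000000100000000000000000000000000000001000000000000000100000001000101160000000000000000000000000000000000000000000000000000000000000001000000000000000000000000000000010000000000000001000000010001011600000000000000000000000000000001000000000000000100000001000101160000000000000001000000010001011600000001000101160001011601161668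

theorem pairM_eq : pairM = layM 11 2 := by decide +kernel

/-- a triple minus one of its points is a pair -/
def pairOK : Bool := (L 11 3).all fun t => (List.range 11).all fun d =>
  Nat.beq (Nat.land (Nat.shiftRight t d) 1)
    (cond (Nat.ble (2 ^ d) t) (Nat.land (Nat.shiftRight pairM (Nat.sub t (2 ^ d))) 1) 0)

theorem pairOK_ok : pairOK = true := by decide +kernel

theorem land_one_eq (x d : ℕ) : Nat.land (Nat.shiftRight x d) 1 = (x.testBit d).toNat := by
  show (x >>> d) &&& 1 = _
  rw [Nat.and_one_is_mod, Nat.shiftRight_eq_div_pow, Nat.testBit_eq_decide_div_mod_eq]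
  rcases Nat.mod_two_eq_zero_or_one (x / 2 ^ d) with h | h
  · rw [h]
    rfl
  · rw [h]
    rfl

theorem pow_land_eq {d t : ℕ} : 2 ^ d &&& t = 2 ^ d ↔ t.testBit d = true := by
  constructor
  · intro h
    have h1 := congrArg (fun x => Nat.testBit x d) h
    simp only [Nat.testBit_and, Nat.testBit_two_pow_self, Bool.true_and] at h1
    exact h1
  · intro h
    refine Nat.eq_of_testBit_eq fun i => ?_
    rw [Nat.testBit_and, Nat.testBit_two_pow]
    by_cases hi : d = i
    · subst hi
      rw [h, Bool.and_true]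
    · rw [decide_eq_false hi, Bool.false_and]

theorem pair_below {m t : ℕ} (hm : m ∈ L 11 1) (ht : t ∈ L 11 3) :
    (m ≤ t ∧ t - m ∈ L 11 2) ↔ m &&& t = m := by
  obtain ⟨d, hd, rfl⟩ := mem_one.1 hm
  have h := List.all_eq_true.1 (List.all_eq_true.1 pairOK_ok t ht) d (List.mem_range.2 hd)
  have h2 := Nat.eq_of_beq_eq_true h
  rw [land_one_eq, land_one_eq] at h2
  rw [pow_land_eq]
  have h3 : ∀ r, pairM.testBit r = decide (r ∈ L 11 2) := fun r => by rw [pairM_eq, testBit_layM]
  by_cases h4 : 2 ^ d ≤ t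
  · rw [Nat.ble_eq_true_of_le h4, cond_true] at h2
    have e : Nat.sub t (2 ^ d) = t - 2 ^ d := rfl
    rw [e, h3] at h2
    constructor
    · rintro ⟨_, h5⟩
      rw [decide_eq_true h5] at h2
      cases h6 : t.testBit d
      · rw [h6] at h2
        exact absurd h2 (by decide)
      · rfl
    · intro h5
      refine ⟨h4, ?_⟩
      by_contra h6
      rw [decide_eq_false h6, h5] at h2
      exact absurd h2 (by decide)
  · have h5 : Nat.ble (2 ^ d) t = false := by
      rw [← Bool.not_eq_true, Nat.ble_eq]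
      exact h4
    rw [h5, cond_false] at h2
    constructor
    · rintro ⟨h6, _⟩
      exact absurd h6 h4
    · intro h6
      rw [h6] at h2
      exact absurd h2 (by decide)

/-- **[D]** the hits of all points in one product -/
theorem hits_eq {X : Finset ℕ} (hX : X ⊆ TR) (hc : X.card ≤ 15)
    (h3 : ∀ m ∈ PT, (X.filter fun t => m &&& t = m).card ≤ 3) :
    Nat.land (Nat.shiftRight (Nat.mul (gs 4 X) V3.kD) 6144) V3.c3S =
      pk 4 2049 (fun m => if m ∈ PT then (X.filter fun t => m &&& t = m).card else 0) := by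
  have hK : ∀ k, k ∈ PR' ↔ ∃ p ∈ L 11 2, 1536 - p = k := by
    intro k
    show k ∈ PR.image (1536 - ·) ↔ _
    rw [mem_image]
    constructor
    · rintro ⟨p, hp, rfl⟩
      exact ⟨p, List.mem_toFinset.1 hp, rfl⟩
    · rintro ⟨p, hp, rfl⟩
      exact ⟨p, List.mem_toFinset.2 hp, rfl⟩
  have hp : ∀ p ∈ L 11 2, p ≤ 1536 := by decide +kernel
  have h1 : gs 4 X * gs 4 PR' = pk 4 (1536 + (2049 + 2047)) (cp X PR') := gs_mul fun a ha p hp => by
    have h4 := TR_lt (hX ha)
    obtain ⟨r, _, rfl⟩ := (hK p).1 hp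
    omega
  have hb : ∀ m, cp X PR' m < 2 ^ 4 := fun m => by
    have := cp_le_left X PR' m
    omega
  have h2 : Nat.land (Nat.shiftRight (Nat.mul (gs 4 X) V3.kD) 6144) V3.c3S =
      ((gs 4 X * V3.kD) >>> (4 * 1536)) &&& V3.c3S := rfl
  rw [h2, kD_eq, c3S_eq, h1, pk_shr (fun m _ => hb m),
    pk_land_gs (fun a ha => by have := PT_lt ha; omega) (fun m _ => hb _) (by norm_num), pk_trunc]
  · refine pk_congr fun m _ => ?_
    by_cases hm : m ∈ PT
    · rw [if_pos hm, if_pos hm]
      have h4 : cp X PR' (1536 + m) = (X.filter fun t => m &&& t = m).card := by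
        unfold cp
        congr 1
        refine filter_congr fun t ht => ?_
        have h5 := pair_below (List.mem_toFinset.1 hm) (List.mem_toFinset.1 (hX ht))
        rw [← h5, hK]
        constructor
        · rintro ⟨h6, p, hp2, h7⟩
          have h8 := hp p hp2
          have h9 : t - m = p := by omega
          refine ⟨by omega, ?_⟩
          rw [h9]
          exact hp2
        · rintro ⟨h6, h7⟩
          have h8 := hp _ h7
          exact ⟨by omega, _, h7, by omega⟩
      rw [h4]
      have h10 := h3 m hm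
      have h11 : ∀ c ≤ 3, c &&& 3 = c := by
        intro c h8
        interval_cases c <;> rfl
      exact h11 _ h10
    · rw [if_neg hm, if_neg hm]
  · intro m hm
    exact if_neg fun h => by have := PT_lt h; omega

end Pool.Agent.Helper97.TY
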