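import Pool.Agent.Helper97.CV.KillW

/-!
MP_8ee768_co, project TH-Y', stage 0: cells of width `W`, sets of cells, products.

`gs W A` = sum of `2 ^ (W a)` over the cells `a ∈ A`. `pk W n w` = the number with the cells `w`.
`cp A P m` = number of the pairs `a + p = m`: the cells of the product `gs W A * gs W P`.
-/

set_option autoImplicit false

namespace Pool.Agent.Helper97.TY

open Finset Pool.Agent.Helper63.SIMD

/-- the set `A` of cells, bit 0 of every cell -/
def gs (W : ℕ) (A : Finset ℕ) : ℕ := ∑ a ∈ A, 2 ^ (W * a)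

/-- number of the representations `m = a + p` -/
def cp (A P : Finset ℕ) (m : ℕ) : ℕ := (A.filter fun a => a ≤ m ∧ m - a ∈ P).card

theorem gs_eq_pk {W n : ℕ} {A : Finset ℕ} (hA : ∀ a ∈ A, a < n) :
    gs W A = pk W n (fun m => if m ∈ A then 1 else 0) := by
  unfold gs pk
  have h : ∀ m, (if m ∈ A then 1 else 0) * 2 ^ (W * m) = if m ∈ A then 2 ^ (W * m) else 0 := by
    intro m
    split_ifs
    · rw [one_mul]
    · rw [zero_mul]
  simp only [h]
  rw [← sum_filter]
  refine sum_congr ?_ fun _ _ => rfl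
  ext m
  rw [mem_filter, mem_range]
  exact ⟨fun hm => ⟨hA m hm, hm⟩, fun hm => hm.2⟩

theorem mul_gs_eq_pk {W n k : ℕ} {A : Finset ℕ} (hA : ∀ a ∈ A, a < n) :
    k * gs W A = pk W n (fun m => if m ∈ A then k else 0) := by
  rw [gs_eq_pk hA, mul_pk]
  refine pk_congr fun m _ => ?_
  split_ifs
  · rw [mul_one]
  · rw [mul_zero]

theorem gs_lt {W n : ℕ} (hW : 0 < W) {A : Finset ℕ} (hA : ∀ a ∈ A, a < n) :
    gs W A < 2 ^ (W * n) := by
  rw [gs_eq_pk hA]
  refine pk_lt fun m _ => ?_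
  split_ifs
  · exact Nat.one_lt_two_pow hW.ne'
  · exact Nat.two_pow_pos W

/-- **product of two sets of cells** -/
theorem gs_mul {W n : ℕ} {A P : Finset ℕ} (h : ∀ a ∈ A, ∀ p ∈ P, a + p < n) :
    gs W A * gs W P = pk W n (cp A P) := by
  unfold gs pk cp
  rw [sum_mul_sum]
  have h1 : ∀ m ∈ range n, (A.filter fun a => a ≤ m ∧ m - a ∈ P).card * 2 ^ (W * m) =
      ∑ a ∈ A, if a ≤ m ∧ m - a ∈ P then 2 ^ (W * m) else 0 := by
    intro m _
    rw [← sum_filter, sum_const, smul_eq_mul]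
  symm
  rw [sum_congr rfl h1, sum_comm]
  refine sum_congr rfl fun a ha => ?_
  rw [← sum_filter]
  refine sum_bij' (fun m _ => m - a) (fun p _ => a + p) ?_ ?_ ?_ ?_ ?_
  · intro m hm
    rw [mem_filter] at hm
    exact hm.2.2
  · intro p hp
    rw [mem_filter, mem_range]
    refine ⟨h a ha p hp, Nat.le_add_right _ _, ?_⟩
    rw [Nat.add_sub_cancel_left]
    exact hp
  · intro m hm
    rw [mem_filter] at hm
    have := hm.2.1
    show a + (m - a) = m
    omega
  · intro p _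
    show a + p - a = p
    omega
  · intro m hm
    rw [mem_filter] at hm
    have := hm.2.1
    show 2 ^ (W * m) = 2 ^ (W * a) * 2 ^ (W * (m - a))
    rw [← pow_add, ← Nat.mul_add]
    congr 2
    omega

theorem cp_le_left (A P : Finset ℕ) (m : ℕ) : cp A P m ≤ A.card := card_filter_le _ _

theorem cp_comm (A P : Finset ℕ) (m : ℕ) : cp A P m = cp P A m := by
  unfold cp
  refine card_bij (fun a _ => m - a) ?_ ?_ ?_
  · intro a ha
    rw [mem_filter] at ha ⊢
    refine ⟨ha.2.2, Nat.sub_le _ _, ?_⟩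
    rw [Nat.sub_sub_self ha.2.1]
    exact ha.1
  · intro a ha b hb hab
    rw [mem_filter] at ha hb
    have h1 := ha.2.1
    have h2 := hb.2.1
    have h3 : m - a = m - b := hab
    omega
  · intro p hp
    rw [mem_filter] at hp
    refine ⟨m - p, ?_, Nat.sub_sub_self hp.2.1⟩
    rw [mem_filter, Nat.sub_sub_self hp.2.1]
    exact ⟨hp.2.2, Nat.sub_le _ _, hp.1⟩

theorem cp_le_right (A P : Finset ℕ) (m : ℕ) : cp A P m ≤ P.card := by
  rw [cp_comm]
  exact cp_le_left P A m

theorem cp_mono {A A' P P' : Finset ℕ} (h1 : A ⊆ A') (h2 : P ⊆ P') (m : ℕ) :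
    cp A P m ≤ cp A' P' m := by
  refine card_le_card fun a ha => ?_
  rw [mem_filter] at ha ⊢
  exact ⟨h1 ha.1, ha.2.1, h2 ha.2.2⟩

/-- shift by `k` cells -/
theorem pk_shr {W n k : ℕ} {w : ℕ → ℕ} (hw : ∀ m < k, w m < 2 ^ W) :
    pk W (k + n) w >>> (W * k) = pk W n (fun m => w (k + m)) := by
  rw [Nat.shiftRight_eq_div_pow]
  have h : pk W (k + n) w = pk W n (fun m => w (k + m)) * 2 ^ (W * k) + pk W k w := by
    unfold pk
    rw [sum_range_add, Nat.add_comm, sum_mul]
    congr 1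
    refine sum_congr rfl fun m _ => ?_
    rw [Nat.mul_add, pow_add]
    ring
  rw [h, Nat.mul_comm, Nat.mul_add_div (Nat.two_pow_pos _), Nat.div_eq_of_lt (pk_lt hw), Nat.add_zero]

/-- the number `N` as cells -/
theorem pk_of_lt {W n N : ℕ} (h : N < 2 ^ (W * n)) : N = pk W n (fld W N) := (pk_fld h).symm

/-- `gs` of a set: bits -/
theorem fld_gs {W n m : ℕ} (hW : 0 < W) {A : Finset ℕ} (hA : ∀ a ∈ A, a < n) (hm : m < n) :
    fld W (gs W A) m = if m ∈ A then 1 else 0 := by
  rw [gs_eq_pk hA, fld_pk _ hm]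
  intro i _
  split_ifs
  · exact Nat.one_lt_two_pow hW.ne'
  · exact Nat.two_pow_pos W

/-- mask by a set of full cells -/
theorem pk_land_full {W n : ℕ} {w : ℕ → ℕ} {A : Finset ℕ} (hA : ∀ a ∈ A, a < n)
    (hw : ∀ m < n, w m < 2 ^ W) :
    pk W n w &&& ((2 ^ W - 1) * gs W A) = pk W n (fun m => if m ∈ A then w m else 0) := by
  rw [mul_gs_eq_pk hA, pk_land hw]
  · refine pk_congr fun m hm => ?_
    by_cases h : m ∈ A
    · simp only [if_pos h]
      rw [Nat.and_two_pow_sub_one_eq_mod, Nat.mod_eq_of_lt (hw m hm)]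
    · simp only [if_neg h, Nat.and_zero]
  · intro m _
    have := Nat.two_pow_pos W
    split_ifs <;> omega

/-- mask by `k` in the cells of `A` -/
theorem pk_land_gs {W n k : ℕ} {w : ℕ → ℕ} {A : Finset ℕ} (hA : ∀ a ∈ A, a < n)
    (hw : ∀ m < n, w m < 2 ^ W) (hk : k < 2 ^ W) :
    pk W n w &&& (k * gs W A) = pk W n (fun m => if m ∈ A then w m &&& k else 0) := by
  rw [mul_gs_eq_pk hA, pk_land hw]
  · refine pk_congr fun m _ => ?_
    by_cases h : m ∈ A
    · simp only [if_pos h]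
    · simp only [if_neg h, Nat.and_zero]
  · intro m _
    split_ifs
    · exact hk
    · exact Nat.two_pow_pos W

end Pool.Agent.Helper97.TY
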